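import Mathlib
import Pool.Agent.helper85.PG.Spec2
import Pool.Agent.helper85.PG.Basic
import Pool.Agent.helper82.Weil.N

/-!
# Case a, Hölder (CAH)
-/

set_option autoImplicit false

namespace Pool.Agent.helper85.PG

open Module Pointwise

/-- collisions for fixed `x, x'` -/
theorem CAH_pair {p : ℕ} [Fact p.Prime] (V W : Finset (ZMod p))
    (hVW : ∀ v ∈ V, ∀ v' ∈ V, v - v' ∈ W) (s x x' : ZMod p) (hx : x ≠ 0) (hx' : x' ≠ 0) :
    ((V ×ˢ V).filter fun q => (q.1 + s) / x = (q.2 + s) / x').card ≤ rr W (x / x') := by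
  classical
  rcases ((V ×ˢ V).filter fun q => (q.1 + s) / x = (q.2 + s) / x').eq_empty_or_nonempty with h | h
  · rw [h, Finset.card_empty]
    exact Nat.zero_le _
  · obtain ⟨⟨v0, v0'⟩, h0⟩ := h
    rw [Finset.mem_filter, Finset.mem_product] at h0
    obtain ⟨⟨h01, h02⟩, h03⟩ := h0
    simp only at h01 h02 h03
    rw [div_eq_div_iff hx hx'] at h03
    unfold rr
    refine Finset.card_le_card_of_injOn (fun q => q.2 - v0') ?_ ?_
    · intro q hq
      rw [Finset.mem_coe, Finset.mem_filter, Finset.mem_product] at hq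
      obtain ⟨⟨h1, h2⟩, h3⟩ := hq
      rw [div_eq_div_iff hx hx'] at h3
      rw [Finset.mem_coe, Finset.mem_filter]
      refine ⟨hVW _ h2 _ h02, ?_⟩
      have h4 : x / x' * (q.2 - v0') = q.1 - v0 := by
        rw [div_mul_eq_mul_div, div_eq_iff hx']
        linear_combination h03 - h3
      simp only
      rw [h4]
      exact hVW _ h1 _ h01
    · intro q hq q' hq' hqq
      rw [Finset.mem_coe, Finset.mem_filter, Finset.mem_product] at hq hq'
      have h5 : q.2 = q'.2 := sub_left_inj.mp hqq
      have h6 := hq.2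
      have h7 := hq'.2
      rw [h5, ← h7] at h6
      have h8 : q.1 + s = q'.1 + s := by
        rwa [div_left_inj' hx] at h6
      exact Prod.ext (add_left_injective s h8) h5

theorem CAH (hE2 : E2_stmt) (hINT : INT_stmt) : CAH_stmt := by
  intro d κ hκ
  obtain ⟨p₀, hp₀⟩ := hE2 (d + d) κ hκ
  refine ⟨p₀, ?_⟩
  intro p _ hp P Q hP hQ μ hμ hμ1 Ψ hΨ s k hk
  obtain ⟨hZ, hW⟩ := hINT p d d P Q hP hQ
  set X := (P μ ∩ Q μ).erase 0 with hX
  set V := P 3 + Q 3 with hV
  set W := P 6 + Q 6 with hWdef
  -- `V - V ⊆ W`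
  have hVW : ∀ v ∈ V, ∀ v' ∈ V, v - v' ∈ W := by
    intro v hv v' hv'
    have h := IsSys.sub_mem hW (R := 3) (R' := 3) hv hv'
    have h36 : (3 : ℝ) + 3 = 6 := by norm_num
    rw [h36] at h
    exact h
  have hVsub : V ⊆ W := IsSys.mono hW (R := 3) (R' := 6) (by norm_num)
  have hZW : P μ ∩ Q μ ⊆ W := by
    intro x hx
    rw [Finset.mem_inter] at hx
    rw [hWdef, Finset.mem_add]
    exact ⟨x, hP.mono (by linarith) hx.1, 0, hQ.zero_mem (by norm_num), add_zero x⟩
  have hE := hp₀ p hp (fun R => P R ∩ Q R) (fun R => P R + Q R) hZ hW μ 6 hμ (by norm_num)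
    (Finset.card_le_card hZW)
  -- Hölder
  have h1 := Pool.Agent.helper82.Weil.holder_collision (X ×ˢ V)
    (fun i : ZMod p × ZMod p => (i.2 + s) / i.1) Ψ hΨ k hk
  rw [Finset.sum_product] at h1
  refine h1.trans ?_
  have hcoll : ((((X ×ˢ V) ×ˢ (X ×ˢ V)).filter fun x =>
      (x.1.2 + s) / x.1.1 = (x.2.2 + s) / x.2.1).card : ℝ) ≤
      ∑ x ∈ X, ∑ x' ∈ X, (rr W (x / x') : ℝ) := by
    have hn : (((X ×ˢ V) ×ˢ (X ×ˢ V)).filter fun x =>
      (x.1.2 + s) / x.1.1 = (x.2.2 + s) / x.2.1).card ≤ ∑ x ∈ X, ∑ x' ∈ X, rr W (x / x') := by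
      rw [← Finset.sum_product' X X (fun x x' => rr W (x / x'))]
      rw [Finset.card_eq_sum_card_fiberwise (f := fun z : (ZMod p × ZMod p) × (ZMod p × ZMod p) =>
        (z.1.1, z.2.1)) (t := X ×ˢ X)]
      · refine Finset.sum_le_sum fun z hz => ?_
        rw [Finset.mem_product] at hz
        refine le_trans ?_ (CAH_pair V W hVW s z.1 z.2 (Finset.ne_of_mem_erase hz.1)
          (Finset.ne_of_mem_erase hz.2))
        refine Finset.card_le_card_of_injOn (fun w => (w.1.2, w.2.2)) ?_ ?_
        · intro w hw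
          rw [Finset.mem_coe, Finset.mem_filter, Finset.mem_filter, Finset.mem_product,
            Finset.mem_product, Finset.mem_product] at hw
          obtain ⟨⟨⟨⟨_, hw1⟩, ⟨_, hw2⟩⟩, hw3⟩, hw4⟩ := hw
          have h5 : w.1.1 = z.1 := by
            have hh := congrArg Prod.fst hw4
            exact hh
          have h6 : w.2.1 = z.2 := by
            have hh := congrArg Prod.snd hw4
            exact hh
          rw [Finset.mem_coe, Finset.mem_filter, Finset.mem_product]
          rw [h5, h6] at hw3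
          exact ⟨⟨hw1, hw2⟩, hw3⟩
        · intro w hw w' hw' hww
          rw [Finset.mem_coe, Finset.mem_filter] at hw hw'
          have h5 : w.1.1 = z.1 := by
            have hh := congrArg Prod.fst hw.2
            exact hh
          have h6 : w.2.1 = z.2 := by
            have hh := congrArg Prod.snd hw.2
            exact hh
          have h5' : w'.1.1 = z.1 := by
            have hh := congrArg Prod.fst hw'.2
            exact hh
          have h6' : w'.2.1 = z.2 := by
            have hh := congrArg Prod.snd hw'.2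
            exact hh
          have h7 : w.1.2 = w'.1.2 := by
            have hh := congrArg Prod.fst hww
            exact hh
          have h8 : w.2.2 = w'.2.2 := by
            have hh := congrArg Prod.snd hww
            exact hh
          exact Prod.ext (Prod.ext (h5.trans h5'.symm) h7) (Prod.ext (h6.trans h6'.symm) h8)
      · intro w hw
        rw [Finset.mem_coe, Finset.mem_filter, Finset.mem_product, Finset.mem_product,
          Finset.mem_product] at hw
        rw [Finset.mem_coe, Finset.mem_product]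
        exact ⟨hw.1.1.1, hw.1.2.1⟩
    exact_mod_cast hn
  have hI : ((X ×ˢ V).card : ℝ) ≤ ((P μ ∩ Q μ).card : ℝ) * (W.card : ℝ) := by
    rw [Finset.card_product]
    push_cast
    have ha : (X.card : ℝ) ≤ ((P μ ∩ Q μ).card : ℝ) := by
      exact_mod_cast Finset.card_le_card (Finset.erase_subset _ _)
    have hb : (V.card : ℝ) ≤ (W.card : ℝ) := by exact_mod_cast Finset.card_le_card hVsub
    gcongr
  have hS : 0 ≤ ∑ u : ZMod p, Ψ u ^ (2 * k) := Finset.sum_nonneg fun u _ => pow_nonneg (hΨ u) _
  apply mul_le_mul_of_nonneg_right _ hS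
  apply mul_le_mul _ (hcoll.trans hE) (by positivity) (by positivity)
  exact pow_le_pow_left₀ (by positivity) hI _

end Pool.Agent.helper85.PG
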