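import Mathlib
import Pool.Agent.helper85.PG.Spec

/-!
# The level set theorem (LEV)

Induction on the dimension; see the docstring of `LEV_stmt`.
-/

set_option autoImplicit false

namespace Pool.Agent.helper85.PG

open Module

theorem LEV_rr_mono {p : ℕ} [Fact p.Prime] {S T : Finset (ZMod p)} (h : S ⊆ T) (ρ : ZMod p) :
    rr S ρ ≤ rr T ρ := by
  unfold rr
  apply Finset.card_le_card
  intro y hy
  rw [Finset.mem_filter] at hy ⊢
  exact ⟨h hy.1, h hy.2⟩

theorem LEV_Lam_mono {p : ℕ} [Fact p.Prime] {C C' : ℝ} (h : C' ≤ C) (S : Finset (ZMod p)) :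
    Lam C S ⊆ Lam C' S := by
  intro ρ hρ
  rw [mem_Lam] at hρ ⊢
  exact ⟨hρ.1, hρ.2.1, le_trans (mul_le_mul_of_nonneg_right h (by positivity)) hρ.2.2⟩

/-- a subgroup of `ZMod p` is trivial or everything -/
theorem LEV_sub {p : ℕ} [Fact p.Prime] (H : AddSubgroup (ZMod p)) : H = ⊥ ∨ H = ⊤ := by
  haveI : Fact (Nat.card (ZMod p)).Prime := by
    rw [Nat.card_zmod]
    infer_instance
  exact AddSubgroup.eq_bot_or_eq_top_of_prime_card H

/-- dimension zero -/
theorem LEV_zero (K : ℕ) : LV 0 K 2 := by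
  intro p _ P hP l hl M hM
  obtain ⟨E, _, _, G, hfin, hrank, hFB, hPG⟩ := hP
  haveI : Subsingleton E := by
    have h0 : finrank ℝ E = 0 := by omega
    exact Module.finrank_zero_iff.mp h0
  have hmem : ∀ y : ZMod p, y ∈ P l ↔ y ∈ G.comap (AddMonoidHom.inr E (ZMod p)) := by
    intro y
    rw [hPG l, mem_PP, AddSubgroup.mem_comap]
    constructor
    · rintro ⟨x, hx, -⟩
      have : x = 0 := Subsingleton.elim _ _
      rw [this] at hx
      exact hx
    · intro h
      refine ⟨0, h, ?_⟩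
      rw [norm_zero]
      exact hl.le
  have hempty : Lam 2 (P l) = ∅ := by
    rw [Finset.eq_empty_iff_forall_notMem]
    intro ρ hρ
    rw [mem_Lam] at hρ
    obtain ⟨hρ0, h2, hC⟩ := hρ
    rcases LEV_sub (G.comap (AddMonoidHom.inr E (ZMod p))) with h | h
    · have hP0 : P l = {0} := by
        ext y
        rw [hmem, h, AddSubgroup.mem_bot, Finset.mem_singleton]
      have : rr (P l) ρ ≤ 1 := by
        unfold rr
        rw [hP0]
        exact (Finset.card_filter_le _ _).trans (by simp)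
      omega
    · have hP1 : P l = Finset.univ := by
        ext y
        rw [hmem, h]
        simp
      have hcard : (P l).card = p := by
        rw [hP1, Finset.card_univ, ZMod.card]
      have hrr : rr (P l) ρ ≤ p := by
        unfold rr
        exact (Finset.card_filter_le _ _).trans (le_of_eq hcard)
      have hp : (0 : ℝ) < p := by exact_mod_cast (Fact.out : p.Prime).pos
      have hrr' : (rr (P l) ρ : ℝ) ≤ p := by exact_mod_cast hrr
      rw [hcard] at hC
      nlinarith [mul_le_mul_of_nonneg_left hrr' hp.le]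
  rw [hempty]
  simp only [Finset.filter_empty, Finset.card_empty, Nat.cast_zero]
  positivity

/-- the bound for a set contained in another set -/
theorem LEV_use {d K : ℕ} {C' C c1 : ℝ} (hC' : 1 ≤ C') (hc1 : 1 ≤ c1)
    (hC : C' * c1 ^ 2 ≤ C) (hLV : LV d K C') (p : ℕ) [Fact p.Prime]
    (P' : ℝ → Finset (ZMod p)) (hP' : IsSys p d P') (l : ℝ) (hl : 0 < l) (M : ℝ) (hM : 0 < M)
    (S : Finset (ZMod p)) (hS : S ⊆ P' l) (hcard : ((P' l).card : ℝ) ≤ c1 * (S.card : ℝ)) :
    (((Lam C S).filter fun ρ => M ≤ (rr S ρ : ℝ)).card : ℝ) ≤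
        C * (p : ℝ) ^ (4 / (K : ℝ)) * ((S.card : ℝ) / M) ^ 2 := by
  have hsub : ((Lam C S).filter fun ρ => M ≤ (rr S ρ : ℝ)) ⊆
      ((Lam C' (P' l)).filter fun ρ => M ≤ (rr (P' l) ρ : ℝ)) := by
    intro ρ hρ
    rw [Finset.mem_filter, mem_Lam] at hρ ⊢
    obtain ⟨⟨h0, h2, h3⟩, h4⟩ := hρ
    have hmono := LEV_rr_mono hS ρ
    have hmono' : (rr S ρ : ℝ) ≤ (rr (P' l) ρ : ℝ) := by exact_mod_cast hmono
    refine ⟨⟨h0, h2.trans hmono, ?_⟩, h4.trans hmono'⟩
    calc C' * ((P' l).card : ℝ) ^ 2 ≤ C' * (c1 * (S.card : ℝ)) ^ 2 := by gcongr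
      _ = C' * c1 ^ 2 * (S.card : ℝ) ^ 2 := by ring
      _ ≤ C * (S.card : ℝ) ^ 2 := by gcongr
      _ ≤ p * (rr S ρ : ℝ) := h3
      _ ≤ p * (rr (P' l) ρ : ℝ) := by gcongr
  have h1 : (((Lam C S).filter fun ρ => M ≤ (rr S ρ : ℝ)).card : ℝ) ≤
      (((Lam C' (P' l)).filter fun ρ => M ≤ (rr (P' l) ρ : ℝ)).card : ℝ) := by
    exact_mod_cast Finset.card_le_card hsub
  have h2 := hLV p P' hP' l hl M hM
  have hp : (0 : ℝ) ≤ (p : ℝ) ^ (4 / (K : ℝ)) := by positivity
  calc (((Lam C S).filter fun ρ => M ≤ (rr S ρ : ℝ)).card : ℝ)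
      ≤ C' * (p : ℝ) ^ (4 / (K : ℝ)) * (((P' l).card : ℝ) / M) ^ 2 := h1.trans h2
    _ ≤ C' * (p : ℝ) ^ (4 / (K : ℝ)) * ((c1 * (S.card : ℝ)) / M) ^ 2 := by gcongr
    _ = (C' * c1 ^ 2) * (p : ℝ) ^ (4 / (K : ℝ)) * ((S.card : ℝ) / M) ^ 2 := by ring
    _ ≤ C * (p : ℝ) ^ (4 / (K : ℝ)) * ((S.card : ℝ) / M) ^ 2 := by gcongr

theorem LEV (hPKC : PKC_stmt) (hSUB : SUB_stmt) (hQUO : QUO_stmt) (hCMP : CMP_stmt)
    (hLV1 : LV1_stmt) (hLV2 : LV2_stmt) : LEV_stmt := by
  intro d K hK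
  induction d with
  | zero => exact ⟨2, by norm_num, LEV_zero K⟩
  | succ d ih =>
    obtain ⟨C', hC', hLV⟩ := ih
    obtain ⟨C1, hC1, h1⟩ := hLV1 d K C' hK hC' hLV
    obtain ⟨C2, hC2, h2⟩ := hLV2 d K C' hK hC' hLV
    set c1 : ℝ := (1 + 2 * ((d : ℝ) + 3)) ^ (d + 1) with hc1
    have hc1' : 1 ≤ c1 := one_le_pow₀ (by
      have : (0 : ℝ) ≤ d := Nat.cast_nonneg d
      linarith)
    have hcc : 1 ≤ C' * c1 ^ 2 := by nlinarith [one_le_pow₀ hc1' (n := 2)]
    have hcc' : C' ≤ C' * c1 ^ 2 := by nlinarith [one_le_pow₀ hc1' (n := 2)]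
    refine ⟨C' * c1 ^ 2 + C1 + C2, by linarith, ?_⟩
    set C : ℝ := C' * c1 ^ 2 + C1 + C2 with hCdef
    intro p _ P hP l hl M hM
    obtain ⟨E, iE, iN, G, hfin, hrank, hFB, hPG⟩ := hP
    by_cases hd : finrank ℝ E ≤ d
    · -- smaller dimension
      have hs : IsSys p d P := ⟨E, iE, iN, G, hfin, hd, hFB, hPG⟩
      exact LEV_use hC' le_rfl (by rw [one_pow, mul_one]; linarith) hLV p P hs l hl M hM (P l)
        (Finset.Subset.refl _) (by rw [one_mul])
    · have hd1 : finrank ℝ E = d + 1 := by omega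
      by_cases hspan : Submodule.span ℝ (Prod.fst '' ball G l) = ⊤
      · by_cases hprop : ∀ x : E, (x, (0 : ZMod p)) ∈ G → ‖x‖ ≤ 2 * l → x = 0
        · -- the main case
          rw [hPG l]
          classical
          set A := (Lam C (PP G l)).filter fun ρ => M ≤ (rr (PP G l) ρ : ℝ) with hA
          set S1 := A.filter fun ρ => Alt1 p G l (d + 1) ρ with hS1
          set S2 := A.filter fun ρ => Alt2 p G l (d + 1) ρ with hS2
          have hAll : A ⊆ S1 ∪ S2 := by
            intro ρ hρ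
            have hρ' := hρ
            rw [hA, Finset.mem_filter, mem_Lam] at hρ'
            rcases hCMP p E (d + 1) G l ρ hFB hd1 hl hprop hρ'.1.1 with h | h
            · exact Finset.mem_union_left _ (Finset.mem_filter.mpr ⟨hρ, h⟩)
            · exact Finset.mem_union_right _ (Finset.mem_filter.mpr ⟨hρ, h⟩)
          have hb1 := h1 C (by linarith) p E G l hFB hd1 hl hspan hprop M hM S1 (by
            intro ρ hρ
            rw [hS1, Finset.mem_filter, hA, Finset.mem_filter] at hρ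
            exact ⟨hρ.1.1, hρ.1.2, hρ.2⟩)
          have hb2 := h2 C (by linarith) p E G l hFB hd1 hl hspan hprop M hM S2 (by
            intro ρ hρ
            rw [hS2, Finset.mem_filter, hA, Finset.mem_filter] at hρ
            exact ⟨hρ.1.1, hρ.1.2, hρ.2⟩)
          have hcard : (A.card : ℝ) ≤ (S1.card : ℝ) + (S2.card : ℝ) := by
            exact_mod_cast (Finset.card_le_card hAll).trans (Finset.card_union_le _ _)
          have hX : 0 ≤ (p : ℝ) ^ (4 / (K : ℝ)) * (((PP G l).card : ℝ) / M) ^ 2 := by positivity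
          have hcc0 : 0 ≤ C' * c1 ^ 2 := by linarith
          calc (A.card : ℝ) ≤ (S1.card : ℝ) + (S2.card : ℝ) := hcard
            _ ≤ C1 * (p : ℝ) ^ (4 / (K : ℝ)) * (((PP G l).card : ℝ) / M) ^ 2 +
                C2 * (p : ℝ) ^ (4 / (K : ℝ)) * (((PP G l).card : ℝ) / M) ^ 2 := add_le_add hb1 hb2
            _ = (C1 + C2) * ((p : ℝ) ^ (4 / (K : ℝ)) * (((PP G l).card : ℝ) / M) ^ 2) := by ring
            _ ≤ C * ((p : ℝ) ^ (4 / (K : ℝ)) * (((PP G l).card : ℝ) / M) ^ 2) :=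
              mul_le_mul_of_nonneg_right (by linarith) hX
            _ = C * (p : ℝ) ^ (4 / (K : ℝ)) * (((PP G l).card : ℝ) / M) ^ 2 := by ring
        · -- not proper
          push Not at hprop
          obtain ⟨x, hxG, hxl, hx0⟩ := hprop
          obtain ⟨P', hP', hsub, hsub'⟩ := hQUO p E G d l x hFB (by omega) hl hx0 hxG hxl
          have hsys : IsSys p (d + 1) (PP G) := ⟨E, iE, iN, G, hfin, by omega, hFB, fun _ => rfl⟩
          have hd0 : (0 : ℝ) ≤ d := Nat.cast_nonneg d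
          have hk := (hPKC.2.2 p (d + 1) (PP G) hsys (((d : ℝ) + 3) * l) l (by positivity) hl).1
          have hkk : (1 + 2 * (((d : ℝ) + 3) * l) / l) = 1 + 2 * ((d : ℝ) + 3) := by
            field_simp
          rw [hkk] at hk
          have hcard : ((P' l).card : ℝ) ≤ c1 * ((PP G l).card : ℝ) := by
            refine le_trans ?_ hk
            exact_mod_cast Finset.card_le_card hsub'
          rw [hPG l]
          exact LEV_use hC' hc1' (by linarith) hLV p P' hP' l hl M hM (PP G l) hsub hcard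
      · -- not spanning
        obtain ⟨P', hP', hPl⟩ := hSUB p E G d l (Submodule.span ℝ (Prod.fst '' ball G l)) hFB
          (by omega) hspan (fun z hz => Submodule.subset_span ⟨z, hz, rfl⟩)
        rw [hPG l, ← hPl]
        exact LEV_use hC' le_rfl (by rw [one_pow, mul_one]; linarith) hLV p P' hP' l hl M hM (P' l)
          (Finset.Subset.refl _) (by rw [one_mul])

end Pool.Agent.helper85.PG
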